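import Mathlib
import Pool.Agent.H51.ThreeD
import Pool.Agent.H51.ThreeP
import Pool.Agent.H51.ThreeZ

set_option autoImplicit false

namespace Pool.Agent.Results.MP_158692_nt.Lower

open Pool.Agent.H51

theorem result :
    ∀ a : ℤ, a % 3 ≠ 0 → ∃ c : ℝ, 0 < c ∧ ∃ x₀ : ℝ, ∀ x : ℝ, x₀ ≤ x →
      c * x ^ (17 / 20 : ℝ) ≤
        (({n : ℤ | |(n : ℝ)| ≤ x ∧ ∃ k : ℕ,
          (fun m : ℤ => if m % 2 = 0 then m / 2 else (3 * m + 1) / 2)^[k] n = a}.ncard : ℕ) : ℝ) :=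
  fun a ha => ThreeZ.countR ThreeT.w ThreeT.w_le ThreeC.ok ThreeC.pos a ha

end Pool.Agent.Results.MP_158692_nt.Lower
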